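import Pool.Agent.Helper26.TK.Space

/-! Packet TK-BC: the branches are boundedly complete. -/

namespace Pool.Agent.Helper26.TK

open Set Filter Topology MeasureTheory

namespace BC

lemma node_length (x : ℕ → Bool) (n : ℕ) : (node x n).length = n := by
  simp [node]

lemma node_inj (x : ℕ → Bool) {m n : ℕ} (h : node x m = node x n) : m = n := by
  have := congrArg List.length h
  simpa [node_length] using this

lemma pairing {Φ : Set (Node →₀ ℝ)} {X : Type} [NormedAddCommGroup X] [NormedSpace ℝ X]
    (H : NS Φ X) (x : ℕ → Bool) (z : ℕ → ℝ) (s : Finset ℕ) (φ : Node →₀ ℝ) :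
    ∑ t ∈ φ.support, φ t * H.co t (∑ n ∈ s, z n • H.e (node x n)) =
      ∑ n ∈ s, z n * φ (node x n) := by
  classical
  have h1 : ∀ t, H.co t (∑ n ∈ s, z n • H.e (node x n)) =
      ∑ n ∈ s, if t = node x n then z n else 0 := by
    intro t
    rw [map_sum]
    apply Finset.sum_congr rfl
    intro n _
    rw [map_smul, H.co_e]
    split_ifs <;> simp
  simp only [h1, Finset.mul_sum]
  rw [Finset.sum_comm]
  apply Finset.sum_congr rfl
  intro n _
  by_cases hn : node x n ∈ φ.support
  · rw [Finset.sum_eq_single (node x n)]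
    · simp [mul_comm]
    · intro t _ ht; simp [ht]
    · intro h; exact absurd hn h
  · have h0 : φ (node x n) = 0 := by simpa using hn
    rw [h0, mul_zero]
    apply Finset.sum_eq_zero
    intro t ht
    have : t ≠ node x n := by
      rintro rfl; exact hn ht
    simp [this]

/-- a block of large norm carries a functional -/
lemma block (hD : StmtD) (f : (ℕ → ℕ) → (ℕ → Bool)) (x : ℕ → Bool)
    (X : Type) [NormedAddCommGroup X] [NormedSpace ℝ X]
    (H : NS (Phi f) X) (z : ℕ → ℝ) (δ : ℝ) (hδ : 0 < δ) (p q : ℕ)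
    (h : δ ≤ ‖∑ n ∈ Finset.Ico p q, z n • H.e (node x n)‖) :
    ∃ ψ : ℕ → ℝ, Dx f x ψ ∧ (∀ n, ψ n ≠ 0 → p ≤ n ∧ n < q) ∧
      δ / 2 < ∑ n ∈ Finset.Ico p q, |z n| * ψ n := by
  classical
  have h1 : ∃ φ ∈ Phi f, δ / 2 < |∑ t ∈ φ.support, φ t *
      H.co t (∑ n ∈ Finset.Ico p q, z n • H.e (node x n))| := by
    by_contra hc
    push Not at hc
    have := H.norm_le _ (δ / 2) (by positivity) hc
    linarith
  obtain ⟨φ, hφ, hφ2⟩ := h1
  rw [pairing] at hφ2
  let S : Finset Node := (Finset.Ico p q).image (node x)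
  let χ : Node →₀ ℝ := φ.filter (fun t => t ∈ S)
  have hχ : χ ∈ Phi f := by
    refine (hD f).1.dom φ hφ χ ?_
    intro t
    by_cases ht : t ∈ S
    · right; simp [χ, Finsupp.filter_apply, ht]
    · left; simp [χ, Finsupp.filter_apply, ht]
  have hmem : ∀ n, node x n ∈ S ↔ p ≤ n ∧ n < q := by
    intro n
    simp only [S, Finset.mem_image, Finset.mem_Ico]
    constructor
    · rintro ⟨m, hm, hmn⟩
      rw [← node_inj x hmn]; exact hm
    · intro hn; exact ⟨n, hn, rfl⟩
  refine ⟨fun n => |χ (node x n)|, hχ x, ?_, ?_⟩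
  · intro n hn
    by_contra hc
    apply hn
    have : node x n ∉ S := fun h => hc ((hmem n).mp h)
    simp [χ, Finsupp.filter_apply, this]
  · calc δ / 2 < |∑ n ∈ Finset.Ico p q, z n * φ (node x n)| := hφ2
      _ ≤ ∑ n ∈ Finset.Ico p q, |z n * φ (node x n)| := Finset.abs_sum_le_sum_abs _ _
      _ = ∑ n ∈ Finset.Ico p q, |z n| * |χ (node x n)| := by
        apply Finset.sum_congr rfl
        intro n hn
        have : node x n ∈ S := (hmem n).mpr (Finset.mem_Ico.mp hn)
        rw [abs_mul]
        simp [χ, Finsupp.filter_apply, this]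

end BC

open BC in
theorem stmtBC (hD : StmtD) : StmtBC := by
  classical
  intro f x X _ _ _ H z hz
  set s : ℕ → X := fun N => ∑ n ∈ Finset.range N, z n • H.e (node x n) with hs
  have hcau : CauchySeq s := by
    by_contra hnc
    rw [Metric.cauchySeq_iff] at hnc
    push Not at hnc
    obtain ⟨δ, hδ, hN⟩ := hnc
    -- blocks
    have hblock : ∀ N : ℕ, ∃ p q : ℕ, ∃ ψ : ℕ → ℝ, N ≤ p ∧ p < q ∧ Dx f x ψ ∧
        (∀ n, ψ n ≠ 0 → p ≤ n ∧ n < q) ∧ δ / 2 < ∑ n ∈ Finset.Ico p q, |z n| * ψ n := by
      intro N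
      obtain ⟨m, hm, n, hn, hmn⟩ := hN N
      have key : ∀ p q : ℕ, N ≤ p → p ≤ q → δ ≤ dist (s p) (s q) →
          ∃ p q : ℕ, ∃ ψ : ℕ → ℝ, N ≤ p ∧ p < q ∧ Dx f x ψ ∧
            (∀ n, ψ n ≠ 0 → p ≤ n ∧ n < q) ∧ δ / 2 < ∑ n ∈ Finset.Ico p q, |z n| * ψ n := by
        intro p q hp hpq hd
        have hne : p ≠ q := by
          rintro rfl
          rw [dist_self] at hd; linarith
        have hpq' : p < q := lt_of_le_of_ne hpq hne
        have hnorm : δ ≤ ‖∑ n ∈ Finset.Ico p q, z n • H.e (node x n)‖ := by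
          rw [dist_comm, dist_eq_norm] at hd
          rw [Finset.sum_Ico_eq_sub _ hpq]
          exact hd
        obtain ⟨ψ, h1, h2, h3⟩ := block hD f x X H z δ hδ p q hnorm
        exact ⟨p, q, ψ, hp, hpq', h1, h2, h3⟩
      rcases le_total m n with hle | hle
      · exact key m n hm hle hmn
      · exact key n m hn hle (by rw [dist_comm]; exact hmn)
    choose P Q Ψ hP hPQ hΨ hsupp hbig using hblock
    obtain ⟨k, hk⟩ := exists_nat_gt (4 / δ)
    have hkδ : 1 < (k : ℝ) * (δ / 4) := by
      have : 4 / δ * (δ / 4) = 1 := by field_simp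
      nlinarith [hδ]
    let b : ℕ → ℕ := fun i => Nat.rec k (fun _ r => Q r) i
    have hb0 : b 0 = k := rfl
    have hbs : ∀ i, b (i + 1) = Q (b i) := fun i => rfl
    let a : ℕ → ℕ := fun i => P (b i)
    have hab : ∀ i, a i < b (i + 1) := fun i => hPQ (b i)
    have hba : ∀ i, b i ≤ a i := fun i => hP (b i)
    have ha : StrictMono a := strictMono_nat_of_lt_succ fun i => lt_of_lt_of_le (hab i) (hba (i + 1))
    have hbmono : Monotone b := monotone_nat_of_le_succ fun i => (hba i).trans (hab i).le
    have hadm : Adm f x k a := Or.inl (by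
      show k ≤ P (b 0)
      exact hP (b 0))
    have hDx := Dx.step k a (fun i => Ψ (b i)) ha hadm (fun i _ => hΨ (b i)) (by
      intro i _ n hn
      have h := hsupp (b i) n hn
      exact ⟨h.1, fun _ => lt_of_lt_of_le h.2 (hba (i + 1))⟩)
    obtain ⟨φ, hφ, hφn, -⟩ := (hD f).2.1 x _ hDx
    -- change of signs
    let g : Node → ℝ := fun t => if z t.length < 0 then -1 else 1
    let φ' : Node →₀ ℝ := Finsupp.onFinset φ.support (fun t => g t * φ t) (by
      intro t ht
      have : φ t ≠ 0 := right_ne_zero_of_mul ht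
      simpa using this)
    have hφ' : φ' ∈ Phi f := by
      refine (hD f).1.dom φ hφ φ' ?_
      intro t
      right
      show |g t * φ t| = |φ t|
      rw [abs_mul]
      have : |g t| = 1 := by
        simp only [g]; split_ifs <;> simp
      rw [this, one_mul]
    have hle := H.le_norm φ' hφ' (s (b k))
    rw [hs] at hle
    simp only at hle
    rw [pairing] at hle
    have hle2 := (le_abs_self _).trans (hle.trans (hz (b k)))
    have hcalc : ∑ n ∈ Finset.range (b k), z n * φ' (node x n) =
        (1 / 2) * ∑ i ∈ Finset.range k, ∑ n ∈ Finset.range (b k), |z n| * Ψ (b i) n := by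
      rw [Finset.sum_comm, Finset.mul_sum]
      apply Finset.sum_congr rfl
      intro n _
      show z n * (g (node x n) * φ (node x n)) = _
      rw [hφn n]
      have hg : z n * g (node x n) = |z n| := by
        simp only [g, node_length]
        split_ifs with h
        · rw [abs_of_neg h]; ring
        · rw [abs_of_nonneg (not_lt.mp h)]; ring
      rw [← mul_assoc, hg, ← Finset.mul_sum]
      ring
    rw [hcalc] at hle2
    have hblk : ∀ i ∈ Finset.range k, δ / 2 ≤ ∑ n ∈ Finset.range (b k), |z n| * Ψ (b i) n := by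
      intro i hi
      have hi' : i < k := Finset.mem_range.mp hi
      have h1 := hbig (b i)
      have h2 : ∑ n ∈ Finset.range (b k), |z n| * Ψ (b i) n =
          ∑ n ∈ Finset.Ico (P (b i)) (Q (b i)), |z n| * Ψ (b i) n := by
        symm
        apply Finset.sum_subset
        · intro n hn
          rw [Finset.mem_Ico] at hn
          rw [Finset.mem_range]
          calc n < Q (b i) := hn.2
            _ = b (i + 1) := (hbs i).symm
            _ ≤ b k := hbmono hi'
        · intro n _ hn
          have : Ψ (b i) n = 0 := by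
            by_contra hne
            exact hn (Finset.mem_Ico.mpr (hsupp (b i) n hne))
          rw [this, mul_zero]
      rw [h2]; exact h1.le
    have hsum := Finset.sum_le_sum hblk
    rw [Finset.sum_const, Finset.card_range, nsmul_eq_mul] at hsum
    linarith
  obtain ⟨v, hv⟩ := cauchySeq_tendsto_of_complete hcau
  exact ⟨v, hv⟩

end Pool.Agent.Helper26.TK
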